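import Pool.Agent.Lib.MP_8fcf71_al.Rel

set_option autoImplicit false
open scoped Pointwise

namespace Pool.Agent.MP_8fcf71_al

variable {G : Type} [Group G] {a b c t : G}

/-- The generating set `{a} ∪ {b^d c^e t : d, e ∈ {0,1}}`. -/
def genS (a b c t : G) : Set G :=
  insert a (Set.range fun de : Fin 2 × Fin 2 => b ^ (de.1 : ℤ) * c ^ (de.2 : ℤ) * t)

theorem Rels.nf_mul_heis (h : Rels a b c t) (p : ℕ) (i j l : ℤ) (q : ℕ) (i' j' l' : ℤ) :
    nf a b c t p i j l q * (a ^ i' * b ^ j' * c ^ l') =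
      nf a b c t p (i + i') (j + (2 : ℤ) ^ q * j') (l + (2 : ℤ) ^ q * l' - j * i') q := by
  unfold nf
  rw [mul_assoc, h.t_heis, mul_assoc, ← mul_assoc (a ^ i * b ^ j * c ^ l), h.heis_mul]
  simp only [mul_assoc]

theorem nf_mul_t (p : ℕ) (i j l : ℤ) (q : ℕ) :
    nf a b c t p i j l q * t = nf a b c t p i j l (q + 1) := by
  unfold nf
  rw [pow_succ]
  simp only [mul_assoc]

theorem nf_mul_tinv (p : ℕ) (i j l : ℤ) (q : ℕ) :
    nf a b c t p i j l (q + 1) * t⁻¹ = nf a b c t p i j l q := by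
  rw [← nf_mul_t, mul_inv_cancel_right]

theorem Rels.nf_mul_tinv_zero (h : Rels a b c t) (p : ℕ) (i j l : ℤ) :
    nf a b c t p i j l 0 * t⁻¹ = nf a b c t (p + 1) i (2 * j) (2 * l) 0 := by
  unfold nf
  have := h.t_heis 1 i j l
  rw [pow_one, pow_one] at this
  rw [pow_succ', mul_inv_rev, pow_zero, mul_one, mul_one, mul_assoc ((t ^ p)⁻¹) t⁻¹]
  rw [mul_assoc]
  congr 1
  rw [eq_inv_mul_iff_mul_eq, ← mul_assoc, this, mul_inv_cancel_right]

theorem nat_lt_two_cast (d : Fin 2) : (0 : ℤ) ≤ ((d : ℕ) : ℤ) ∧ ((d : ℕ) : ℤ) ≤ 1 := by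
  have := d.isLt
  omega

/-- Coordinates of the elements of the ball of radius `n`. -/
theorem Rels.ball_inv (h : Rels a b c t) (n : ℕ) :
    ∀ g ∈ ({1} ∪ genS a b c t ∪ (genS a b c t)⁻¹ : Set G) ^ n,
      ∃ p q r : ℕ, p ≤ r ∧ q ≤ r ∧ 2 * r ≤ n + (q - p) + (p - q) ∧
        ∃ i j l : ℤ, |i| ≤ n ∧ |j| ≤ n * 2 ^ r ∧ |l| ≤ n ^ 2 * 2 ^ r ∧
          g = nf a b c t p i j l q := by
  induction n with
  | zero =>
    intro g hg
    rw [pow_zero, Set.mem_one] at hg
    exact ⟨0, 0, 0, le_rfl, le_rfl, by simp, 0, 0, 0, by simp, by simp, by simp, by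
      simp [nf, hg]⟩
  | succ n ih =>
    intro g hg
    rw [pow_succ, Set.mem_mul] at hg
    obtain ⟨x, hx, s, hs, rfl⟩ := hg
    obtain ⟨p, q, r, hpr, hqr, hr, i, j, l, hi, hj, hl, rfl⟩ := ih x hx
    have h2r : (1 : ℤ) ≤ 2 ^ r := one_le_pow₀ (by norm_num)
    have hn0 : (0 : ℤ) ≤ n := by positivity
    have hn2 : ((n : ℤ)) ^ 2 * 2 ^ r + n * 2 ^ r ≤ ((n : ℤ) + 1) ^ 2 * 2 ^ r := by
      have : ((n : ℤ) + 1) ^ 2 = n ^ 2 + n + (n + 1) := by ring
      rw [this]
      nlinarith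
    have hn3 : ((n : ℤ)) ^ 2 * 2 ^ r + 2 ^ r ≤ ((n : ℤ) + 1) ^ 2 * 2 ^ r := by
      have : ((n : ℤ) + 1) ^ 2 = n ^ 2 + 1 + 2 * n := by ring
      rw [this]
      nlinarith
    push_cast
    rcases hs with (hs | hs) | hs
    · -- s = 1
      rw [Set.mem_singleton_iff] at hs
      subst hs
      refine ⟨p, q, r, hpr, hqr, by omega, i, j, l, by linarith, ?_, ?_, by rw [mul_one]⟩
      · nlinarith
      · nlinarith
    · rcases hs with hs | ⟨⟨d, e⟩, hs⟩
      · -- s = a
        subst hs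
        refine ⟨p, q, r, hpr, hqr, by omega, i + 1, j, l - j, ?_, ?_, ?_, ?_⟩
        · exact (abs_add_le _ _).trans (by simpa using hi)
        · nlinarith
        · exact (abs_sub _ _).trans (by linarith)
        · have := h.nf_mul_heis p i j l q 1 0 0
          simpa using this
      · -- s = b^d c^e t
        simp only at hs
        subst hs
        have hd := nat_lt_two_cast d
        have he := nat_lt_two_cast e
        have hq2 : (2 : ℤ) ^ q ≤ 2 ^ r := pow_le_pow_right₀ (by norm_num) hqr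
        have hq0 : (0 : ℤ) < 2 ^ q := by positivity
        have hrr : (2 : ℤ) ^ r ≤ 2 ^ (max r (q + 1)) := pow_le_pow_right₀ (by norm_num) (le_max_left _ _)
        refine ⟨p, q + 1, max r (q + 1), ?_, le_max_right _ _, ?_, i,
          j + 2 ^ q * ((d : ℕ) : ℤ), l + 2 ^ q * ((e : ℕ) : ℤ), by linarith, ?_, ?_, ?_⟩
        · exact hpr.trans (le_max_left _ _)
        · rcases le_total (q + 1) r with h1 | h1
          · rw [max_eq_left h1]; omega
          · rw [max_eq_right h1]; omega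
        · have h1 : |2 ^ q * ((d : ℕ) : ℤ)| ≤ 2 ^ r := by
            rw [abs_of_nonneg (by nlinarith)]; nlinarith
          calc |j + 2 ^ q * ((d : ℕ) : ℤ)| ≤ |j| + |2 ^ q * ((d : ℕ) : ℤ)| := abs_add_le _ _
            _ ≤ n * 2 ^ r + 2 ^ r := add_le_add hj h1
            _ = (n + 1) * 2 ^ r := by ring
            _ ≤ _ := by nlinarith
        · have h1 : |2 ^ q * ((e : ℕ) : ℤ)| ≤ 2 ^ r := by
            rw [abs_of_nonneg (by nlinarith)]; nlinarith
          calc |l + 2 ^ q * ((e : ℕ) : ℤ)| ≤ |l| + |2 ^ q * ((e : ℕ) : ℤ)| := abs_add_le _ _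
            _ ≤ n ^ 2 * 2 ^ r + 2 ^ r := add_le_add hl h1
            _ ≤ (n + 1) ^ 2 * 2 ^ r := hn3
            _ ≤ _ := by nlinarith [sq_nonneg ((n : ℤ) + 1)]
        · have := h.nf_mul_heis p i j l q 0 ((d : ℕ) : ℤ) ((e : ℕ) : ℤ)
          rw [zpow_zero, one_mul, mul_zero, sub_zero, add_zero] at this
          rw [← mul_assoc, this, nf_mul_t]
    · rw [Set.mem_inv] at hs
      rcases hs with hs | ⟨⟨d, e⟩, hs⟩
      · -- s = a⁻¹
        rw [inv_eq_iff_eq_inv] at hs
        subst hs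
        refine ⟨p, q, r, hpr, hqr, by omega, i - 1, j, l + j, ?_, ?_, ?_, ?_⟩
        · exact (abs_sub _ _).trans (by simpa using hi)
        · nlinarith
        · exact (abs_add_le _ _).trans (by linarith)
        · have := h.nf_mul_heis p i j l q (-1) 0 0
          simpa [sub_eq_add_neg] using this
      · -- s = (b^d c^e t)⁻¹
        simp only at hs
        have hd := nat_lt_two_cast d
        have he := nat_lt_two_cast e
        have hs' : s = t⁻¹ * (a ^ (0 : ℤ) * b ^ (-((d : ℕ) : ℤ)) * c ^ (-((e : ℕ) : ℤ))) := by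
          rw [← inv_inj, ← hs, mul_inv_rev, inv_inv, mul_inv_rev, zpow_zero, one_mul,
            ← zpow_neg, ← zpow_neg, neg_neg, neg_neg, (h.bc.zpow_zpow _ _).eq]
        subst hs'
        rcases q with _ | q
        · refine ⟨p + 1, 0, r + 1, by omega, by omega, by omega, i,
            2 * j - ((d : ℕ) : ℤ), 2 * l - ((e : ℕ) : ℤ), by linarith, ?_, ?_, ?_⟩
          · calc |2 * j - ((d : ℕ) : ℤ)| ≤ |2 * j| + |((d : ℕ) : ℤ)| := abs_sub _ _
              _ ≤ 2 * (n * 2 ^ r) + 1 := by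
                refine add_le_add ?_ ?_
                · rw [abs_mul]; simpa using hj
                · rw [abs_of_nonneg hd.1]; exact hd.2
              _ ≤ _ := by rw [pow_succ (2 : ℤ) r]; nlinarith
          · calc |2 * l - ((e : ℕ) : ℤ)| ≤ |2 * l| + |((e : ℕ) : ℤ)| := abs_sub _ _
              _ ≤ 2 * (n ^ 2 * 2 ^ r) + 1 := by
                refine add_le_add ?_ ?_
                · rw [abs_mul]; simpa using hl
                · rw [abs_of_nonneg he.1]; exact he.2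
              _ ≤ _ := by rw [pow_succ (2 : ℤ) r]; nlinarith
          · rw [← mul_assoc, h.nf_mul_tinv_zero, h.nf_mul_heis, add_zero, pow_zero, one_mul,
              one_mul, mul_zero, sub_zero, ← sub_eq_add_neg, ← sub_eq_add_neg]
        · have hq2 : (2 : ℤ) ^ q ≤ 2 ^ r := pow_le_pow_right₀ (by norm_num) (by omega)
          have hq0 : (0 : ℤ) < 2 ^ q := by positivity
          refine ⟨p, q, r, hpr, by omega, by omega, i,
            j - 2 ^ q * ((d : ℕ) : ℤ), l - 2 ^ q * ((e : ℕ) : ℤ), by linarith, ?_, ?_, ?_⟩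
          · have h1 : |2 ^ q * ((d : ℕ) : ℤ)| ≤ 2 ^ r := by
              rw [abs_of_nonneg (by nlinarith)]; nlinarith
            calc |j - 2 ^ q * ((d : ℕ) : ℤ)| ≤ |j| + |2 ^ q * ((d : ℕ) : ℤ)| := abs_sub _ _
              _ ≤ n * 2 ^ r + 2 ^ r := add_le_add hj h1
              _ = _ := by ring
          · have h1 : |2 ^ q * ((e : ℕ) : ℤ)| ≤ 2 ^ r := by
              rw [abs_of_nonneg (by nlinarith)]; nlinarith
            calc |l - 2 ^ q * ((e : ℕ) : ℤ)| ≤ |l| + |2 ^ q * ((e : ℕ) : ℤ)| := abs_sub _ _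
              _ ≤ n ^ 2 * 2 ^ r + 2 ^ r := add_le_add hl h1
              _ ≤ _ := hn3
          · rw [← mul_assoc, nf_mul_tinv, h.nf_mul_heis, add_zero, mul_neg, mul_neg,
              mul_zero, sub_zero, ← sub_eq_add_neg, ← sub_eq_add_neg]

end Pool.Agent.MP_8fcf71_al
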