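import Pool.Agent.Lib.MP_8fcf71_al.Ball

set_option autoImplicit false
open scoped Pointwise

namespace Pool.Agent.MP_8fcf71_al

variable {G : Type} [Group G] {a b c t : G}

/-- the standard representatives -/
def std (a b c t : G) (i j l : ℤ) (k : ℕ) : G := a ^ i * b ^ j * c ^ l * t ^ k

theorem nf_isConj_std (p k : ℕ) (i j l : ℤ) :
    IsConj (nf a b c t p i j l (p + k)) (std a b c t i j l k) := by
  rw [isConj_iff]
  refine ⟨t ^ p, ?_⟩
  unfold nf std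
  rw [add_comm p k, pow_add]
  group

theorem Rels.std_inv (h : Rels a b c t) (i j l : ℤ) :
    (a ^ i * b ^ j * c ^ l)⁻¹ = a ^ (-i) * b ^ (-j) * c ^ (-l - i * j) := by
  rw [inv_eq_iff_mul_eq_one, h.heis_mul]
  have : l + (-l - i * j) - j * -i = 0 := by ring
  rw [this]
  simp

theorem Rels.nf_inv (h : Rels a b c t) (p q : ℕ) (i j l : ℤ) :
    (nf a b c t p i j l q)⁻¹ = nf a b c t q (-i) (-j) (-l - i * j) p := by
  unfold nf
  rw [mul_inv_rev, mul_inv_rev, h.std_inv, inv_inv]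
  simp only [mul_assoc]

theorem Rels.std_conj_a (h : Rels a b c t) (i j l : ℤ) (k : ℕ) (u : ℤ) :
    IsConj (std a b c t i j l k) (std a b c t i j (l + j * u) k) := by
  rw [isConj_iff]
  refine ⟨a ^ u, ?_⟩
  unfold std
  have e1 : t ^ k * (a ^ u)⁻¹ = (a ^ u)⁻¹ * t ^ k :=
    (((h.at'.zpow_left u).pow_right k).inv_left).eq.symm
  have e2 := h.heis_mul u 0 0 i j l
  have e3 := h.heis_mul (u + i) j l (-u) 0 0
  simp only [zpow_zero, mul_one, zero_mul, sub_zero, zero_add, add_zero] at e2 e3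
  rw [mul_assoc, mul_assoc (a ^ i * b ^ j * c ^ l), e1, ← mul_assoc (a ^ i * b ^ j * c ^ l),
    ← mul_assoc (a ^ u), ← mul_assoc (a ^ u), e2, ← zpow_neg, e3]
  congr 3
  · congr 1; ring
  · ring

theorem Rels.std_conj_c (h : Rels a b c t) (i j l : ℤ) (k : ℕ) (y : ℤ) :
    IsConj (std a b c t i j l k) (std a b c t i j (l - (2 ^ k - 1) * y) k) := by
  rw [isConj_iff]
  refine ⟨c ^ y, ?_⟩
  unfold std
  have e1 := h.tc_pow k (-y)
  have e2 := h.heis_mul 0 0 y i j l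
  simp only [zpow_zero, one_mul, zero_mul, sub_zero, zero_add] at e2
  rw [← zpow_neg, mul_assoc, mul_assoc (a ^ i * b ^ j * c ^ l), e1,
    ← mul_assoc (a ^ i * b ^ j * c ^ l), ← mul_assoc (c ^ y), ← mul_assoc (c ^ y), e2,
    mul_assoc (a ^ i * b ^ j), ← zpow_add]
  congr 3
  ring

theorem Rels.std_conj_b (h : Rels a b c t) (i j l : ℤ) (k : ℕ) (x : ℤ) :
    IsConj (std a b c t i j l k) (std a b c t i (j - (2 ^ k - 1) * x) (l - x * i) k) := by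
  rw [isConj_iff]
  refine ⟨b ^ x, ?_⟩
  unfold std
  have e1 := h.tb_pow k (-x)
  have e2 := h.heis_mul 0 x 0 i j l
  have e3 := h.heis_mul i (x + j) (l - x * i) 0 (2 ^ k * -x) 0
  simp only [zpow_zero, one_mul, mul_one, mul_zero, sub_zero, zero_add, add_zero] at e2 e3
  rw [← zpow_neg, mul_assoc, mul_assoc (a ^ i * b ^ j * c ^ l), e1,
    ← mul_assoc (a ^ i * b ^ j * c ^ l), ← mul_assoc (b ^ x), ← mul_assoc (b ^ x), e2, e3]
  congr 3
  congr 1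
  ring

/-- Every class with positive `t`-exponent `k` has a representative with
`0 ≤ j < 2^k - 1` and `0 ≤ l < gcd (j, 2^k - 1)`. -/
theorem Rels.std_reduce (h : Rels a b c t) (i j l : ℤ) (k : ℕ) (hk : 1 ≤ k) :
    ∃ j' l' : ℕ, j' < 2 ^ k - 1 ∧ l' < Nat.gcd j' (2 ^ k - 1) ∧
      IsConj (std a b c t i j l k) (std a b c t i j' l' k) := by
  have hX : 0 < 2 ^ k - 1 := by
    have : 2 ^ 1 ≤ 2 ^ k := Nat.pow_le_pow_right (by norm_num) hk
    omega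
  obtain ⟨X, hXdef⟩ : ∃ X : ℕ, X = 2 ^ k - 1 := ⟨_, rfl⟩
  rw [← hXdef] at hX ⊢
  have hXZ : (X : ℤ) = 2 ^ k - 1 := by
    rw [hXdef, Nat.cast_sub (Nat.one_le_two_pow)]
    push_cast; ring
  have hj1 : 0 ≤ j % (X : ℤ) := Int.emod_nonneg _ (by omega)
  have hj2 : j % (X : ℤ) < X := Int.emod_lt_of_pos _ (by omega)
  obtain ⟨j', hj'⟩ := Int.eq_ofNat_of_zero_le hj1
  have hj3 : j - (X : ℤ) * (j / X) = j' := by
    rw [← hj']; rw [Int.emod_def]
  have c1 := h.std_conj_b i j l k (j / X)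
  rw [← hXZ, hj3] at c1
  obtain ⟨l1, hl1⟩ : ∃ l1, l1 = l - j / (X : ℤ) * i := ⟨_, rfl⟩
  rw [← hl1] at c1
  obtain ⟨g, hg⟩ : ∃ g, g = Nat.gcd j' X := ⟨_, rfl⟩
  have hgpos : 0 < g := by rw [hg]; exact Nat.gcd_pos_of_pos_right _ hX
  have hl2 : 0 ≤ l1 % (g : ℤ) := Int.emod_nonneg _ (by omega)
  have hl3 : l1 % (g : ℤ) < g := Int.emod_lt_of_pos _ (by omega)
  obtain ⟨l', hl'⟩ := Int.eq_ofNat_of_zero_le hl2
  have hb := Nat.gcd_eq_gcd_ab j' X
  rw [← hg] at hb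
  have c2 := h.std_conj_a i j' l1 k (-(l1 / g) * Nat.gcdA j' X)
  have c3 := h.std_conj_c i j' (l1 + j' * (-(l1 / g) * Nat.gcdA j' X)) k
    ((l1 / g) * Nat.gcdB j' X)
  rw [← hXZ] at c3
  have hfin : l1 + j' * (-(l1 / g) * Nat.gcdA j' X) - X * ((l1 / g) * Nat.gcdB j' X) = l' := by
    have e : l1 % (g : ℤ) = l1 - g * (l1 / g) := Int.emod_def _ _
    rw [← hl', e]
    have : l1 + j' * (-(l1 / g) * Nat.gcdA j' X) - X * ((l1 / g) * Nat.gcdB j' X)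
        = l1 - (j' * Nat.gcdA j' X + X * Nat.gcdB j' X) * (l1 / g) := by ring
    rw [this, ← hb]
  rw [hfin] at c3
  refine ⟨j', l', ?_, ?_, c1.trans (c2.trans c3)⟩
  · omega
  · rw [← hg]; omega

/-- Finite index sets for the classes. -/
noncomputable def idxA (n : ℕ) : Finset (ℤ × ℤ × ℤ) :=
  Finset.Icc (-(n : ℤ)) (n : ℤ) ×ˢ
    (Finset.Icc (-((n : ℤ) * 2 ^ (n / 2))) ((n : ℤ) * 2 ^ (n / 2)) ×ˢ
      Finset.Icc (-((n : ℤ) ^ 2 * 2 ^ (n / 2))) ((n : ℤ) ^ 2 * 2 ^ (n / 2)))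

def idxJ (k : ℕ) : Finset (Σ _ : ℕ, ℕ) :=
  (Finset.range (2 ^ k - 1)).sigma fun j => Finset.range (Nat.gcd j (2 ^ k - 1))

noncomputable def idxB (n : ℕ) : Finset (Σ _ : ℕ, (ℤ × (Σ _ : ℕ, ℕ))) :=
  (Finset.Icc 1 n).sigma fun k => Finset.Icc (-(n : ℤ)) (n : ℤ) ×ˢ idxJ k

theorem Rels.classes_subset (h : Rels a b c t) (n : ℕ) :
    ConjClasses.mk '' (({1} ∪ genS a b c t ∪ (genS a b c t)⁻¹ : Set G) ^ n) ⊆
      ((fun x : ℤ × ℤ × ℤ => ConjClasses.mk (std a b c t x.1 x.2.1 x.2.2 0)) '' (idxA n : Set _)) ∪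
      (((fun x : Σ _ : ℕ, (ℤ × (Σ _ : ℕ, ℕ)) =>
        ConjClasses.mk (std a b c t x.2.1 x.2.2.1 x.2.2.2 x.1)) '' (idxB n : Set _)) ∪
      ((fun x : Σ _ : ℕ, (ℤ × (Σ _ : ℕ, ℕ)) =>
        ConjClasses.mk (std a b c t x.2.1 x.2.2.1 x.2.2.2 x.1)⁻¹) '' (idxB n : Set _))) := by
  rintro _ ⟨g, hg, rfl⟩
  obtain ⟨p, q, r, hpr, hqr, hr, i, j, l, hi, hj, hl, rfl⟩ := h.ball_inv n g hg
  rw [abs_le] at hi hj hl
  rcases lt_trichotomy p q with hpq | hpq | hpq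
  · -- positive exponent
    right; left
    obtain ⟨k, rfl⟩ := Nat.exists_eq_add_of_le hpq.le
    have hk : 1 ≤ k := by omega
    obtain ⟨j', l', hj', hl', hc⟩ := h.std_reduce i j l k hk
    refine ⟨⟨k, i, ⟨j', l'⟩⟩, ?_, ?_⟩
    · simp only [idxB, idxJ, Finset.coe_sigma, Set.mem_sigma_iff, Finset.mem_coe,
        Finset.mem_product, Finset.mem_Icc, Finset.mem_sigma, Finset.mem_range]
      refine ⟨⟨hk, by omega⟩, hi, hj', hl'⟩
    · simp only [ConjClasses.mk_eq_mk_iff_isConj]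
      exact (hc.symm).trans (nf_isConj_std p k i j l).symm
  · -- exponent zero
    left
    subst hpq
    refine ⟨⟨i, j, l⟩, ?_, ?_⟩
    · have hr2 : r ≤ n / 2 := by omega
      have h2 : (2 : ℤ) ^ r ≤ 2 ^ (n / 2) := pow_le_pow_right₀ (by norm_num) hr2
      have hn0 : (0 : ℤ) ≤ n := by positivity
      simp only [idxA, Finset.coe_product, Set.mem_prod, Finset.mem_coe, Finset.mem_Icc]
      refine ⟨hi, ⟨?_, ?_⟩, ⟨?_, ?_⟩⟩ <;> nlinarith [sq_nonneg (n : ℤ)]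
    · simp only [ConjClasses.mk_eq_mk_iff_isConj]
      exact (nf_isConj_std p 0 i j l).symm
  · -- negative exponent
    right; right
    obtain ⟨k, rfl⟩ := Nat.exists_eq_add_of_le hpq.le
    have hk : 1 ≤ k := by omega
    have hinv := h.nf_inv (q + k) q i j l
    obtain ⟨j', l', hj', hl', hc⟩ := h.std_reduce (-i) (-j) (-l - i * j) k hk
    refine ⟨⟨k, -i, ⟨j', l'⟩⟩, ?_, ?_⟩
    · simp only [idxB, idxJ, Finset.coe_sigma, Set.mem_sigma_iff, Finset.mem_coe,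
        Finset.mem_product, Finset.mem_Icc, Finset.mem_sigma, Finset.mem_range]
      refine ⟨⟨hk, by omega⟩, ⟨by linarith, by linarith⟩, hj', hl'⟩
    · simp only [ConjClasses.mk_eq_mk_iff_isConj]
      have h1 : IsConj (std a b c t (-i) j' l' k) (nf a b c t (q + k) i j l q)⁻¹ := by
        rw [hinv]
        exact (hc.symm).trans (nf_isConj_std q k _ _ _).symm
      rw [isConj_iff] at h1 ⊢
      obtain ⟨x, hx⟩ := h1
      refine ⟨x, ?_⟩
      rw [← inv_inj, ← hx]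
      group

end Pool.Agent.MP_8fcf71_al
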