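import Pool.Agent.Lib.MP_8fcf71_al.Classes

set_option autoImplicit false
open scoped Pointwise

namespace Pool.Agent.MP_8fcf71_al

theorem sum_gcd_le (X : ℕ) :
    ∑ j ∈ Finset.range X, Nat.gcd j X ≤ X * X.divisors.card := by
  rcases Nat.eq_zero_or_pos X with rfl | hX
  · simp
  have hmaps : ∀ j ∈ Finset.range X, Nat.gcd X j ∈ X.divisors := by
    intro j _
    rw [Nat.mem_divisors]
    exact ⟨Nat.gcd_dvd_left _ _, by omega⟩
  calc ∑ j ∈ Finset.range X, Nat.gcd j X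
      = ∑ j ∈ Finset.range X, Nat.gcd X j := by
        refine Finset.sum_congr rfl fun j _ => Nat.gcd_comm _ _
    _ = ∑ d ∈ X.divisors, ∑ j ∈ Finset.range X with Nat.gcd X j = d, Nat.gcd X j := by
        rw [Finset.sum_fiberwise_of_maps_to hmaps]
    _ = ∑ d ∈ X.divisors, (Nat.totient (X / d)) * d := by
        refine Finset.sum_congr rfl fun d hd => ?_
        rw [Nat.totient_div_of_dvd (Nat.dvd_of_mem_divisors hd), ← smul_eq_mul,
          ← Finset.sum_const]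
        refine Finset.sum_congr rfl fun j hj => ?_
        exact (Finset.mem_filter.mp hj).2
    _ ≤ ∑ d ∈ X.divisors, X := by
        refine Finset.sum_le_sum fun d hd => ?_
        calc Nat.totient (X / d) * d ≤ (X / d) * d :=
              Nat.mul_le_mul_right _ (Nat.totient_le _)
          _ = X := Nat.div_mul_cancel (Nat.dvd_of_mem_divisors hd)
    _ = X * X.divisors.card := by simp [mul_comm]

theorem card_divisors_le_two_sqrt (X : ℕ) : X.divisors.card ≤ 2 * Nat.sqrt X := by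
  classical
  have hsub : X.divisors ⊆ (Finset.Icc 1 (Nat.sqrt X)) ∪
      ((Finset.Icc 1 (Nat.sqrt X)).image fun e => X / e) := by
    intro d hd
    have hdvd := Nat.dvd_of_mem_divisors hd
    have hpos : 0 < X := Nat.pos_of_ne_zero (Nat.mem_divisors.mp hd).2
    have hd0 : 0 < d := Nat.pos_of_dvd_of_pos hdvd hpos
    rw [Finset.mem_union, Finset.mem_Icc, Finset.mem_image]
    by_cases h : d ≤ Nat.sqrt X
    · left; exact ⟨hd0, h⟩
    · right
      refine ⟨X / d, ?_, ?_⟩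
      · rw [Finset.mem_Icc]
        refine ⟨Nat.div_pos (Nat.le_of_dvd hpos hdvd) hd0, ?_⟩
        have h1 : Nat.sqrt X + 1 ≤ d := by omega
        by_contra hcon
        have h2 : Nat.sqrt X + 1 ≤ X / d := by omega
        have h3 : (Nat.sqrt X + 1) * (Nat.sqrt X + 1) ≤ (X / d) * d :=
          Nat.mul_le_mul h2 h1
        rw [Nat.div_mul_cancel hdvd] at h3
        have h4 := Nat.lt_succ_sqrt X
        simp only [Nat.succ_eq_add_one] at h4
        omega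
      · exact Nat.div_div_self hdvd (by omega)
  calc X.divisors.card ≤ _ := Finset.card_le_card hsub
    _ ≤ (Finset.Icc 1 (Nat.sqrt X)).card +
        ((Finset.Icc 1 (Nat.sqrt X)).image fun e => X / e).card := Finset.card_union_le _ _
    _ ≤ (Finset.Icc 1 (Nat.sqrt X)).card + (Finset.Icc 1 (Nat.sqrt X)).card :=
        Nat.add_le_add_left Finset.card_image_le _
    _ = _ := by simp; ring

theorem card_idxJ (k : ℕ) : (idxJ k).card ≤ 2 * 3 ^ k := by
  unfold idxJ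
  rw [Finset.card_sigma]
  simp only [Finset.card_range]
  have hX : 2 ^ k - 1 ≤ 2 ^ k := Nat.sub_le _ _
  calc ∑ j ∈ Finset.range (2 ^ k - 1), Nat.gcd j (2 ^ k - 1)
      ≤ (2 ^ k - 1) * (2 ^ k - 1).divisors.card := sum_gcd_le _
    _ ≤ (2 ^ k - 1) * (2 * Nat.sqrt (2 ^ k - 1)) :=
        Nat.mul_le_mul_left _ (card_divisors_le_two_sqrt _)
    _ ≤ 2 ^ k * (2 * Nat.sqrt (2 ^ k)) :=
        Nat.mul_le_mul hX (Nat.mul_le_mul_left _ (Nat.sqrt_le_sqrt hX))
    _ = 2 * (2 ^ k * Nat.sqrt (2 ^ k)) := by ring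
    _ ≤ 2 * 3 ^ k := by
        refine Nat.mul_le_mul_left _ ?_
        rw [← Nat.mul_self_le_mul_self_iff]
        calc 2 ^ k * Nat.sqrt (2 ^ k) * (2 ^ k * Nat.sqrt (2 ^ k))
            = (2 ^ k * 2 ^ k) * (Nat.sqrt (2 ^ k) * Nat.sqrt (2 ^ k)) := by ring
          _ ≤ (2 ^ k * 2 ^ k) * 2 ^ k := Nat.mul_le_mul_left _ (Nat.sqrt_le _)
          _ = 8 ^ k := by rw [← mul_pow, ← mul_pow]; norm_num
          _ ≤ 9 ^ k := Nat.pow_le_pow_left (by norm_num) _
          _ = 3 ^ k * 3 ^ k := by rw [← mul_pow]; norm_num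

theorem card_idxB (n : ℕ) : (idxB n).card ≤ n * ((2 * n + 1) * (2 * 3 ^ n)) := by
  unfold idxB
  rw [Finset.card_sigma]
  simp only [Finset.card_product, Int.card_Icc]
  calc ∑ k ∈ Finset.Icc 1 n, ((n : ℤ) + 1 - -(n : ℤ)).toNat * (idxJ k).card
      ≤ ∑ k ∈ Finset.Icc 1 n, (2 * n + 1) * (2 * 3 ^ n) := by
        refine Finset.sum_le_sum fun k hk => ?_
        rw [Finset.mem_Icc] at hk
        refine Nat.mul_le_mul (by omega) ((card_idxJ k).trans ?_)
        exact Nat.mul_le_mul_left _ (Nat.pow_le_pow_right (by norm_num) hk.2)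
    _ = _ := by simp

theorem card_idxA (n : ℕ) :
    (idxA n).card ≤ (2 * n + 1) * ((2 * n + 1) * (2 * n + 1) ^ 2 * 2 ^ n) := by
  unfold idxA
  simp only [Finset.card_product, Int.card_Icc]
  have e1 : ((n : ℤ) + 1 - -(n : ℤ)).toNat = 2 * n + 1 := by omega
  have e2 : ((n : ℤ) * 2 ^ (n / 2) + 1 - -((n : ℤ) * 2 ^ (n / 2))).toNat
      = 2 * (n * 2 ^ (n / 2)) + 1 := by
    have : ((n : ℤ) * 2 ^ (n / 2) + 1 - -((n : ℤ) * 2 ^ (n / 2))) =
      ((2 * (n * 2 ^ (n / 2)) + 1 : ℕ) : ℤ) := by push_cast; ring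
    rw [this, Int.toNat_natCast]
  have e3 : ((n : ℤ) ^ 2 * 2 ^ (n / 2) + 1 - -((n : ℤ) ^ 2 * 2 ^ (n / 2))).toNat
      = 2 * (n ^ 2 * 2 ^ (n / 2)) + 1 := by
    have : ((n : ℤ) ^ 2 * 2 ^ (n / 2) + 1 - -((n : ℤ) ^ 2 * 2 ^ (n / 2))) =
      ((2 * (n ^ 2 * 2 ^ (n / 2)) + 1 : ℕ) : ℤ) := by push_cast; ring
    rw [this, Int.toNat_natCast]
  rw [e1, e2, e3]
  refine Nat.mul_le_mul_left _ ?_
  have h1 : 1 ≤ 2 ^ (n / 2) := Nat.one_le_two_pow
  have f1 : 2 * (n * 2 ^ (n / 2)) + 1 ≤ (2 * n + 1) * 2 ^ (n / 2) := by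
    nlinarith
  have f2 : 2 * (n ^ 2 * 2 ^ (n / 2)) + 1 ≤ (2 * n + 1) ^ 2 * 2 ^ (n / 2) := by
    nlinarith [Nat.zero_le (n * 2 ^ (n / 2)), Nat.zero_le (n ^ 2 * 2 ^ (n / 2))]
  calc (2 * (n * 2 ^ (n / 2)) + 1) * (2 * (n ^ 2 * 2 ^ (n / 2)) + 1)
      ≤ ((2 * n + 1) * 2 ^ (n / 2)) * ((2 * n + 1) ^ 2 * 2 ^ (n / 2)) := Nat.mul_le_mul f1 f2
    _ = (2 * n + 1) * (2 * n + 1) ^ 2 * (2 ^ (n / 2 + n / 2)) := by rw [pow_add]; ring
    _ ≤ _ := Nat.mul_le_mul_left _ (Nat.pow_le_pow_right (by norm_num) (by omega))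

variable {G : Type} [Group G] {a b c t : G}

theorem Rels.ncard_classes (h : Rels a b c t) (n : ℕ) :
    (ConjClasses.mk '' (({1} ∪ genS a b c t ∪ (genS a b c t)⁻¹ : Set G) ^ n)).ncard ≤
      5 * (2 * n + 1) ^ 4 * 3 ^ n := by
  have hsub := h.classes_subset n
  have hfin : (((fun x : ℤ × ℤ × ℤ => ConjClasses.mk (std a b c t x.1 x.2.1 x.2.2 0)) '' (idxA n : Set _)) ∪
      (((fun x : Σ _ : ℕ, (ℤ × (Σ _ : ℕ, ℕ)) =>
        ConjClasses.mk (std a b c t x.2.1 x.2.2.1 x.2.2.2 x.1)) '' (idxB n : Set _)) ∪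
      ((fun x : Σ _ : ℕ, (ℤ × (Σ _ : ℕ, ℕ)) =>
        ConjClasses.mk (std a b c t x.2.1 x.2.2.1 x.2.2.2 x.1)⁻¹) '' (idxB n : Set _)))).Finite := by
    refine Set.Finite.union ?_ (Set.Finite.union ?_ ?_)
    · exact (Finset.finite_toSet _).image _
    · exact (Finset.finite_toSet _).image _
    · exact (Finset.finite_toSet _).image _
  refine (Set.ncard_le_ncard hsub hfin).trans ?_
  refine (Set.ncard_union_le _ _).trans ?_
  refine (Nat.add_le_add (Set.ncard_image_le (Finset.finite_toSet _))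
    ((Set.ncard_union_le _ _).trans (Nat.add_le_add
      (Set.ncard_image_le (Finset.finite_toSet _))
      (Set.ncard_image_le (Finset.finite_toSet _))))).trans ?_
  rw [Set.ncard_coe_finset, Set.ncard_coe_finset]
  have hA := card_idxA n
  have hB := card_idxB n
  have h23 : 2 ^ n ≤ 3 ^ n := Nat.pow_le_pow_left (by norm_num) n
  have hA' : (idxA n).card ≤ (2 * n + 1) ^ 4 * 3 ^ n := by
    calc (idxA n).card ≤ _ := hA
      _ = (2 * n + 1) ^ 4 * 2 ^ n := by ring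
      _ ≤ _ := Nat.mul_le_mul_left _ h23
  have hB' : (idxB n).card ≤ 2 * (2 * n + 1) ^ 4 * 3 ^ n := by
    calc (idxB n).card ≤ n * ((2 * n + 1) * (2 * 3 ^ n)) := hB
      _ = 2 * (n * (2 * n + 1)) * 3 ^ n := by ring
      _ ≤ 2 * (2 * n + 1) ^ 4 * 3 ^ n := by
        refine Nat.mul_le_mul_right _ (Nat.mul_le_mul_left _ ?_)
        have : n ≤ (2 * n + 1) ^ 3 := by
          calc n ≤ 2 * n + 1 := by omega
            _ ≤ _ := Nat.le_self_pow (by norm_num) _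
        calc n * (2 * n + 1) ≤ (2 * n + 1) ^ 3 * (2 * n + 1) := Nat.mul_le_mul_right _ this
          _ = _ := by ring
  calc (idxA n).card + ((idxB n).card + (idxB n).card)
      ≤ (2 * n + 1) ^ 4 * 3 ^ n + (2 * (2 * n + 1) ^ 4 * 3 ^ n + 2 * (2 * n + 1) ^ 4 * 3 ^ n) :=
        Nat.add_le_add hA' (Nat.add_le_add hB' hB')
    _ = _ := by ring

end Pool.Agent.MP_8fcf71_al
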