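import Pool.Agent.Lib.MP_8fcf71_al.Lower

set_option autoImplicit false
open scoped Pointwise

namespace Pool.Agent.MP_8fcf71_al

theorem ncard_pow_le {G : Type} [Group G] (B : Set G) (n : ℕ) :
    (B ^ n).ncard ≤ B.ncard ^ n := by
  induction n with
  | zero =>
    rw [pow_zero, pow_zero, ← Set.singleton_one, Set.ncard_singleton]
  | succ n ih =>
    rw [pow_succ, pow_succ]
    calc (B ^ n * B).ncard = Nat.card (B ^ n * B : Set G) := (Nat.card_coe_set_eq _).symm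
      _ ≤ Nat.card (B ^ n : Set G) * Nat.card B := Set.natCard_mul_le
      _ = (B ^ n).ncard * B.ncard := by rw [Nat.card_coe_set_eq, Nat.card_coe_set_eq]
      _ ≤ _ := Nat.mul_le_mul_right _ ih

/-- If `x n ≤ ρ^n` then `(x n)^(1/n) ≤ ρ`. -/
theorem root_le {x : ℕ} {ρ : ℝ} (hρ : 0 ≤ ρ) {n : ℕ} (hn : n ≠ 0) (h : (x : ℝ) ≤ ρ ^ n) :
    (x : ℝ) ^ ((1 : ℝ) / n) ≤ ρ := by
  have h1 : (x : ℝ) ^ ((1 : ℝ) / n) ≤ (ρ ^ n) ^ ((1 : ℝ) / n) :=
    Real.rpow_le_rpow (Nat.cast_nonneg _) h (by positivity)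
  rwa [one_div, Real.pow_rpow_inv_natCast hρ hn, ← one_div] at h1

theorem le_root {x : ℕ} {ρ : ℝ} (hρ : 0 ≤ ρ) {n : ℕ} (hn : n ≠ 0) (h : ρ ^ n ≤ (x : ℝ)) :
    ρ ≤ (x : ℝ) ^ ((1 : ℝ) / n) := by
  have h1 : (ρ ^ n) ^ ((1 : ℝ) / n) ≤ (x : ℝ) ^ ((1 : ℝ) / n) :=
    Real.rpow_le_rpow (by positivity) h (by positivity)
  rwa [one_div, Real.pow_rpow_inv_natCast hρ hn, ← one_div] at h1

theorem poly_le : ∀ᶠ n : ℕ in Filter.atTop, (5 * (2 * (n : ℝ) + 1) ^ 4 * 3 ^ n) ≤ (7 / 2) ^ n := by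
  have ht := tendsto_pow_const_div_const_pow_of_one_lt 4 (r := (7 / 6 : ℝ)) (by norm_num)
  have h1 : ∀ᶠ n : ℕ in Filter.atTop, (n : ℝ) ^ 4 / (7 / 6 : ℝ) ^ n < 1 / 405 :=
    ht.eventually (gt_mem_nhds (by norm_num))
  filter_upwards [h1, Filter.eventually_ge_atTop 1] with n hn h1n
  have hpos : (0 : ℝ) < (7 / 6 : ℝ) ^ n := by positivity
  rw [div_lt_iff₀ hpos] at hn
  have hn1 : (1 : ℝ) ≤ n := by exact_mod_cast h1n
  have h2 : (2 * (n : ℝ) + 1) ^ 4 ≤ (3 * n) ^ 4 :=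
    pow_le_pow_left₀ (by positivity) (by linarith) 4
  have h3 : (5 * (2 * (n : ℝ) + 1) ^ 4) ≤ (7 / 6) ^ n := by
    calc (5 * (2 * (n : ℝ) + 1) ^ 4) ≤ 5 * (3 * n) ^ 4 := by linarith
      _ = 405 * (n : ℝ) ^ 4 := by ring
      _ ≤ _ := by linarith
  calc (5 * (2 * (n : ℝ) + 1) ^ 4 * 3 ^ n) ≤ (7 / 6) ^ n * 3 ^ n :=
        mul_le_mul_of_nonneg_right h3 (by positivity)
    _ = (7 / 2) ^ n := by rw [← mul_pow]; norm_num

theorem upper :
    Filter.limsup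
        (fun n : ℕ =>
          ((ConjClasses.mk '' (({1} ∪ genS (gen 0) (gen 1) (gen 2) (gen 3) ∪
            (genS (gen 0) (gen 1) (gen 2) (gen 3))⁻¹ : Set Ex) ^ n)).ncard : ℝ) ^ ((1 : ℝ) / n))
        Filter.atTop ≤ 7 / 2 := by
  refine Filter.limsup_le_of_le ?_ ?_
  · exact (Filter.isBoundedUnder_of ⟨0, fun n => by positivity⟩).isCoboundedUnder_le
  · filter_upwards [poly_le, Filter.eventually_ge_atTop 1] with n hn h1n
    refine root_le (by norm_num) (by omega) (le_trans ?_ hn)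
    have := ex_rels.ncard_classes n
    exact_mod_cast this

theorem lower :
    4 ≤ Filter.limsup
        (fun n : ℕ =>
          ((({1} ∪ genS (gen 0) (gen 1) (gen 2) (gen 3) ∪
            (genS (gen 0) (gen 1) (gen 2) (gen 3))⁻¹ : Set Ex) ^ n).ncard : ℝ) ^ ((1 : ℝ) / n))
        Filter.atTop := by
  refine Filter.le_limsup_of_frequently_le ?_ ?_
  · refine Filter.Eventually.frequently ?_
    filter_upwards [Filter.eventually_ge_atTop 1] with n h1n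
    refine le_root (by norm_num) (by omega) ?_
    exact_mod_cast four_pow_le n
  · refine ⟨((({1} ∪ genS (gen 0) (gen 1) (gen 2) (gen 3) ∪
            (genS (gen 0) (gen 1) (gen 2) (gen 3))⁻¹ : Set Ex)).ncard : ℝ), ?_⟩
    rw [Filter.eventually_map]
    filter_upwards [Filter.eventually_ge_atTop 1] with n h1n
    refine root_le (Nat.cast_nonneg _) (by omega) ?_
    exact_mod_cast ncard_pow_le _ n

theorem relSet_finite : relSet.Finite := List.finite_toSet relList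

end Pool.Agent.MP_8fcf71_al
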