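import Pool.Agent.Lib.MP_8fcf71_al.Count

set_option autoImplicit false
open scoped Pointwise

namespace Pool.Agent.MP_8fcf71_al

/-- the relators, in the free group on four letters `0 = a`, `1 = b`, `2 = c`, `3 = t` -/
def relList : List (FreeGroup (Fin 4)) :=
  [ FreeGroup.of 1 * FreeGroup.of 2 * (FreeGroup.of 2 * FreeGroup.of 1)⁻¹,
    FreeGroup.of 0 * FreeGroup.of 2 * (FreeGroup.of 2 * FreeGroup.of 0)⁻¹,
    FreeGroup.of 0 * FreeGroup.of 3 * (FreeGroup.of 3 * FreeGroup.of 0)⁻¹,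
    FreeGroup.of 0 * FreeGroup.of 1 * ((FreeGroup.of 1 * FreeGroup.of 2) * FreeGroup.of 0)⁻¹,
    FreeGroup.of 3 * FreeGroup.of 1 * ((FreeGroup.of 1) ^ (2 : ℤ) * FreeGroup.of 3)⁻¹,
    FreeGroup.of 3 * FreeGroup.of 2 * ((FreeGroup.of 2) ^ (2 : ℤ) * FreeGroup.of 3)⁻¹ ]

def relSet : Set (FreeGroup (Fin 4)) := {r | r ∈ relList}

/-- The group of the example. -/
abbrev Ex : Type := FreeGroup (Fin 4) ⧸ Subgroup.normalClosure relSet

/-- the generators in the quotient -/
def gen (i : Fin 4) : Ex := QuotientGroup.mk' (Subgroup.normalClosure relSet) (FreeGroup.of i)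

theorem rel_eq (u v : FreeGroup (Fin 4)) (h : u * v⁻¹ ∈ relList) :
    QuotientGroup.mk' (Subgroup.normalClosure relSet) u =
      QuotientGroup.mk' (Subgroup.normalClosure relSet) v := by
  have h1 : u * v⁻¹ ∈ Subgroup.normalClosure relSet := Subgroup.subset_normalClosure h
  have h2 : QuotientGroup.mk' (Subgroup.normalClosure relSet) (u * v⁻¹) = 1 := by
    rwa [QuotientGroup.mk'_apply, QuotientGroup.eq_one_iff]
  rwa [map_mul, map_inv, mul_inv_eq_one] at h2

theorem ex_rels : Rels (gen 0) (gen 1) (gen 2) (gen 3) where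
  bc := by
    have := rel_eq (FreeGroup.of 1 * FreeGroup.of 2) (FreeGroup.of 2 * FreeGroup.of 1)
      (by simp [relList])
    simp only [map_mul] at this
    exact this
  ac := by
    have := rel_eq (FreeGroup.of 0 * FreeGroup.of 2) (FreeGroup.of 2 * FreeGroup.of 0)
      (by simp [relList])
    simp only [map_mul] at this
    exact this
  at' := by
    have := rel_eq (FreeGroup.of 0 * FreeGroup.of 3) (FreeGroup.of 3 * FreeGroup.of 0)
      (by simp [relList])
    simp only [map_mul] at this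
    exact this
  ab := by
    have := rel_eq (FreeGroup.of 0 * FreeGroup.of 1)
      ((FreeGroup.of 1 * FreeGroup.of 2) * FreeGroup.of 0) (by simp [relList])
    simp only [map_mul] at this
    exact this
  tb := by
    have := rel_eq (FreeGroup.of 3 * FreeGroup.of 1)
      ((FreeGroup.of 1) ^ (2 : ℤ) * FreeGroup.of 3) (by simp [relList])
    simp only [map_mul, map_zpow] at this
    exact this
  tc := by
    have := rel_eq (FreeGroup.of 3 * FreeGroup.of 2)
      ((FreeGroup.of 2) ^ (2 : ℤ) * FreeGroup.of 3) (by simp [relList])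
    simp only [map_mul, map_zpow] at this
    exact this

/-- the affine action on the plane -/
def pa : Equiv.Perm (ℚ × ℚ) where
  toFun v := (v.1, v.1 + v.2)
  invFun v := (v.1, v.2 - v.1)
  left_inv v := by ext <;> simp
  right_inv v := by ext <;> simp

def pb : Equiv.Perm (ℚ × ℚ) where
  toFun v := (v.1 + 1, v.2)
  invFun v := (v.1 - 1, v.2)
  left_inv v := by ext <;> simp
  right_inv v := by ext <;> simp

def pc : Equiv.Perm (ℚ × ℚ) where
  toFun v := (v.1, v.2 + 1)
  invFun v := (v.1, v.2 - 1)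
  left_inv v := by ext <;> simp
  right_inv v := by ext <;> simp

def pt : Equiv.Perm (ℚ × ℚ) where
  toFun v := (2 * v.1, 2 * v.2)
  invFun v := (v.1 / 2, v.2 / 2)
  left_inv v := by ext <;> simp
  right_inv v := by ext <;> simp <;> ring

def pgen : Fin 4 → Equiv.Perm (ℚ × ℚ) := ![pa, pb, pc, pt]

theorem pgen_rel : ∀ r ∈ relSet, FreeGroup.lift pgen r = 1 := by
  intro r hr
  simp only [relSet, relList, Set.mem_ofPred_eq, List.mem_cons, List.not_mem_nil, or_false] at hr
  rcases hr with rfl | rfl | rfl | rfl | rfl | rfl <;>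
  · simp only [map_mul, map_inv, map_zpow, FreeGroup.lift_apply_of]
    rw [mul_inv_eq_one]
    ext v <;> simp [pgen, pa, pb, pc, pt, zpow_ofNat, sq] <;> ring

/-- the representation -/
noncomputable def rep : Ex →* Equiv.Perm (ℚ × ℚ) :=
  QuotientGroup.lift _ (FreeGroup.lift pgen) (by
    intro x hx
    have : Subgroup.normalClosure relSet ≤ (FreeGroup.lift pgen).ker := by
      refine Subgroup.normalClosure_le_normal fun r hr => pgen_rel r hr
    exact this hx)

theorem rep_gen (i : Fin 4) : rep (gen i) = pgen i := by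
  unfold rep gen
  rw [QuotientGroup.mk'_apply, QuotientGroup.lift_mk, FreeGroup.lift_apply_of]

theorem pt_zero (n : ℕ) : (pt ^ n) ((0 : ℚ), (0 : ℚ)) = (0, 0) := by
  induction n with
  | zero => rfl
  | succ n ih =>
    rw [pow_succ, Equiv.Perm.mul_apply]
    have : pt ((0 : ℚ), (0 : ℚ)) = (0, 0) := by simp [pt]
    rw [this, ih]

theorem pb_pow (n : ℕ) (v : ℚ × ℚ) : (pb ^ n) v = (v.1 + n, v.2) := by
  induction n generalizing v with
  | zero => simp
  | succ n ih =>
    rw [pow_succ, Equiv.Perm.mul_apply, ih]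
    simp [pb]
    ring

theorem pc_pow (n : ℕ) (v : ℚ × ℚ) : (pc ^ n) v = (v.1, v.2 + n) := by
  induction n generalizing v with
  | zero => simp
  | succ n ih =>
    rw [pow_succ, Equiv.Perm.mul_apply, ih]
    simp [pc]
    ring

theorem rep_point (n : ℕ) (uv : ℕ × ℕ) :
    rep (gen 1 ^ uv.1 * gen 2 ^ uv.2 * gen 3 ^ n) (0, 0) = ((uv.1 : ℚ), (uv.2 : ℚ)) := by
  rw [map_mul, map_mul, map_pow, map_pow, map_pow, rep_gen, rep_gen, rep_gen]
  have e1 : pgen 1 = pb := rfl
  have e2 : pgen 2 = pc := rfl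
  have e3 : pgen 3 = pt := rfl
  rw [e1, e2, e3, Equiv.Perm.mul_apply, Equiv.Perm.mul_apply, pt_zero, pc_pow, pb_pow]
  simp

/-- the words in the ball -/
theorem mem_ball (n : ℕ) : ∀ u v : ℕ, u < 2 ^ n → v < 2 ^ n →
    gen 1 ^ u * gen 2 ^ v * gen 3 ^ n ∈
      ({1} ∪ genS (gen 0) (gen 1) (gen 2) (gen 3) ∪
        (genS (gen 0) (gen 1) (gen 2) (gen 3))⁻¹ : Set Ex) ^ n := by
  induction n with
  | zero =>
    intro u v hu hv
    have hu0 : u = 0 := by simpa using hu
    have hv0 : v = 0 := by simpa using hv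
    subst hu0; subst hv0
    simp
  | succ n ih =>
    intro u v hu hv
    rw [pow_succ', Set.mem_mul]
    have hu2 : u / 2 < 2 ^ n := by omega
    have hv2 : v / 2 < 2 ^ n := by omega
    have hud : u % 2 < 2 := Nat.mod_lt _ (by norm_num)
    have hvd : v % 2 < 2 := Nat.mod_lt _ (by norm_num)
    refine ⟨gen 1 ^ ((u % 2 : ℕ) : ℤ) * gen 2 ^ ((v % 2 : ℕ) : ℤ) * gen 3, ?_,
      gen 1 ^ (u / 2) * gen 2 ^ (v / 2) * gen 3 ^ n, ih _ _ hu2 hv2, ?_⟩
    · left; right; right
      exact ⟨⟨⟨u % 2, hud⟩, ⟨v % 2, hvd⟩⟩, rfl⟩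
    · have h1 := ex_rels.nf_mul_heis 0 0 ((u % 2 : ℕ) : ℤ) ((v % 2 : ℕ) : ℤ) 1 0
        ((u / 2 : ℕ) : ℤ) ((v / 2 : ℕ) : ℤ)
      unfold nf at h1
      simp only [pow_zero, inv_one, one_mul, zpow_zero, pow_one, mul_zero, sub_zero,
        add_zero] at h1
      have hu' : ((u % 2 : ℕ) : ℤ) + 2 * ((u / 2 : ℕ) : ℤ) = (u : ℤ) := by omega
      have hv' : ((v % 2 : ℕ) : ℤ) + 2 * ((v / 2 : ℕ) : ℤ) = (v : ℤ) := by omega
      rw [hu', hv'] at h1
      rw [← mul_assoc, ← zpow_natCast (gen 1) (u / 2), ← zpow_natCast (gen 2) (v / 2), h1,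
        zpow_natCast, zpow_natCast, pow_succ', mul_assoc]

theorem genS_finite {G : Type} [Group G] (a b c t : G) : (genS a b c t).Finite :=
  (Set.finite_range _).insert _

theorem ball_finite {G : Type} [Group G] (S : Set G) (hS : S.Finite) (n : ℕ) :
    (({1} ∪ S ∪ S⁻¹ : Set G) ^ n).Finite := by
  induction n with
  | zero => rw [pow_zero]; exact Set.finite_one
  | succ n ih =>
    rw [pow_succ]
    exact ih.mul (((Set.finite_singleton _).union hS).union hS.inv)

theorem four_pow_le (n : ℕ) :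
    4 ^ n ≤ (({1} ∪ genS (gen 0) (gen 1) (gen 2) (gen 3) ∪
        (genS (gen 0) (gen 1) (gen 2) (gen 3))⁻¹ : Set Ex) ^ n).ncard := by
  have hinj : Set.InjOn (fun uv : ℕ × ℕ => gen 1 ^ uv.1 * gen 2 ^ uv.2 * gen 3 ^ n)
      (((Finset.range (2 ^ n)) ×ˢ (Finset.range (2 ^ n)) : Finset (ℕ × ℕ)) : Set (ℕ × ℕ)) := by
    intro x _ y _ hxy
    have h1 := rep_point n x
    have h2 := rep_point n y
    simp only at hxy
    rw [hxy, h2] at h1
    have h3 := congrArg Prod.fst h1
    have h4 := congrArg Prod.snd h1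
    simp only [Nat.cast_inj] at h3 h4
    exact (Prod.ext h3 h4).symm
  have hcard : ((fun uv : ℕ × ℕ => gen 1 ^ uv.1 * gen 2 ^ uv.2 * gen 3 ^ n) ''
      (((Finset.range (2 ^ n)) ×ˢ (Finset.range (2 ^ n)) : Finset (ℕ × ℕ)) : Set (ℕ × ℕ))).ncard
      = 4 ^ n := by
    rw [Set.InjOn.ncard_image hinj, Set.ncard_coe_finset, Finset.card_product,
      Finset.card_range, ← mul_pow]
    norm_num
  rw [← hcard]
  refine Set.ncard_le_ncard ?_ (ball_finite _ (genS_finite _ _ _ _) n)
  rintro _ ⟨⟨u, v⟩, huv, rfl⟩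
  rw [Finset.mem_coe, Finset.mem_product, Finset.mem_range, Finset.mem_range] at huv
  exact mem_ball n u v huv.1 huv.2

theorem closure_genS :
    Subgroup.closure (genS (gen 0) (gen 1) (gen 2) (gen 3)) = ⊤ := by
  have h0 : gen 0 ∈ Subgroup.closure (genS (gen 0) (gen 1) (gen 2) (gen 3)) :=
    Subgroup.subset_closure (Set.mem_insert _ _)
  have hde : ∀ d e : Fin 2, gen 1 ^ (d : ℤ) * gen 2 ^ (e : ℤ) * gen 3 ∈
      Subgroup.closure (genS (gen 0) (gen 1) (gen 2) (gen 3)) := fun d e =>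
    Subgroup.subset_closure (Set.mem_insert_of_mem _ ⟨⟨d, e⟩, rfl⟩)
  have h3 : gen 3 ∈ Subgroup.closure (genS (gen 0) (gen 1) (gen 2) (gen 3)) := by
    simpa using hde 0 0
  have h1 : gen 1 ∈ Subgroup.closure (genS (gen 0) (gen 1) (gen 2) (gen 3)) := by
    have := Subgroup.mul_mem _ (hde 1 0) (Subgroup.inv_mem _ h3)
    simpa using this
  have h2 : gen 2 ∈ Subgroup.closure (genS (gen 0) (gen 1) (gen 2) (gen 3)) := by
    have := Subgroup.mul_mem _ (hde 0 1) (Subgroup.inv_mem _ h3)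
    simpa using this
  rw [eq_top_iff]
  intro x _
  obtain ⟨w, rfl⟩ := QuotientGroup.mk'_surjective (Subgroup.normalClosure relSet) x
  induction w using FreeGroup.induction_on with
  | C1 => rw [map_one]; exact Subgroup.one_mem _
  | of i =>
    fin_cases i
    · exact h0
    · exact h1
    · exact h2
    · exact h3
  | inv_of i hi => rw [map_inv]; exact Subgroup.inv_mem _ (hi trivial)
  | mul u v hu hv => rw [map_mul]; exact Subgroup.mul_mem _ (hu trivial) (hv trivial)

end Pool.Agent.MP_8fcf71_al
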