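import Mathlib

set_option autoImplicit false
open scoped Pointwise

/-!
Elements `a b c t` of a group with the relations
`bc = cb`, `ac = ca`, `at = ta`, `ab = bca`, `tb = b^2 t`, `tc = c^2 t`.
-/

namespace Pool.Agent.MP_8fcf71_al

/-- The relations of the example. -/
structure Rels {G : Type} [Group G] (a b c t : G) : Prop where
  bc : Commute b c
  ac : Commute a c
  at' : Commute a t
  ab : SemiconjBy a b (b * c)
  tb : SemiconjBy t b (b ^ (2 : ℤ))
  tc : SemiconjBy t c (c ^ (2 : ℤ))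

variable {G : Type} [Group G] {a b c t : G}

/-- normal form -/
def nf (a b c t : G) (p : ℕ) (i j l : ℤ) (q : ℕ) : G :=
  (t ^ p)⁻¹ * (a ^ i * b ^ j * c ^ l) * t ^ q

theorem Rels.tb_pow (h : Rels a b c t) (m : ℕ) (j : ℤ) :
    t ^ m * b ^ j = b ^ ((2 : ℤ) ^ m * j) * t ^ m := by
  induction m generalizing j with
  | zero => simp
  | succ m ih =>
    have h1 : t * b ^ j = b ^ (2 * j) * t := by
      have := (h.tb.zpow_right j).eq
      rwa [← zpow_mul] at this
    rw [pow_succ, mul_assoc, h1, ← mul_assoc, ih, mul_assoc]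
    congr 2
    ring

theorem Rels.tc_pow (h : Rels a b c t) (m : ℕ) (j : ℤ) :
    t ^ m * c ^ j = c ^ ((2 : ℤ) ^ m * j) * t ^ m := by
  induction m generalizing j with
  | zero => simp
  | succ m ih =>
    have h1 : t * c ^ j = c ^ (2 * j) * t := by
      have := (h.tc.zpow_right j).eq
      rwa [← zpow_mul] at this
    rw [pow_succ, mul_assoc, h1, ← mul_assoc, ih, mul_assoc]
    congr 2
    ring

/-- `a^u b^j = b^j c^(j u) a^u` -/
theorem Rels.ab_zpow (h : Rels a b c t) (u j : ℤ) :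
    a ^ u * b ^ j = b ^ j * c ^ (j * u) * a ^ u := by
  have h1 : ∀ j : ℤ, a * b ^ j = b ^ j * c ^ j * a := by
    intro j
    have := (h.ab.zpow_right j).eq
    rwa [h.bc.mul_zpow] at this
  have h2 : ∀ j : ℤ, a⁻¹ * b ^ j = b ^ j * c ^ (-j) * a⁻¹ := by
    intro j
    have hc : a * c ^ (-j) = c ^ (-j) * a := (h.ac.zpow_right (-j)).eq
    have : a * (b ^ j * c ^ (-j)) = b ^ j * a := by
      rw [← mul_assoc, h1, mul_assoc, hc, mul_assoc, ← mul_assoc (c ^ j)]
      rw [← zpow_add]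
      simp
    rw [inv_mul_eq_iff_eq_mul, ← mul_assoc, ← mul_assoc] 
    rw [← mul_assoc] at this
    rw [this]
    simp
  induction u using Int.induction_on with
  | zero => simp
  | succ n ih =>
    have hc : a * c ^ (j * (n : ℤ)) = c ^ (j * (n : ℤ)) * a := (h.ac.zpow_right _).eq
    calc a ^ ((n : ℤ) + 1) * b ^ j = a * (a ^ (n : ℤ) * b ^ j) := by
          rw [add_comm, zpow_add, zpow_one, mul_assoc]
      _ = (a * b ^ j) * c ^ (j * (n : ℤ)) * a ^ (n : ℤ) := by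
          rw [ih]; simp only [mul_assoc]
      _ = b ^ j * c ^ j * (a * c ^ (j * (n : ℤ))) * a ^ (n : ℤ) := by
          rw [h1]; simp only [mul_assoc]
      _ = b ^ j * (c ^ j * c ^ (j * (n : ℤ))) * (a * a ^ (n : ℤ)) := by
          rw [hc]; simp only [mul_assoc]
      _ = _ := by
          rw [← zpow_add, ← zpow_one_add, add_comm 1 (n : ℤ)]
          congr 3
          ring
  | pred n ih =>
    have hc : a⁻¹ * c ^ (j * (-(n : ℤ))) = c ^ (j * (-(n : ℤ))) * a⁻¹ :=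
      (h.ac.inv_left.zpow_right _).eq
    calc a ^ (-(n : ℤ) - 1) * b ^ j = a⁻¹ * (a ^ (-(n : ℤ)) * b ^ j) := by
          rw [sub_eq_add_neg, add_comm, zpow_add, zpow_neg_one, mul_assoc]
      _ = (a⁻¹ * b ^ j) * c ^ (j * (-(n : ℤ))) * a ^ (-(n : ℤ)) := by
          rw [ih]; simp only [mul_assoc]
      _ = b ^ j * c ^ (-j) * (a⁻¹ * c ^ (j * (-(n : ℤ)))) * a ^ (-(n : ℤ)) := by
          rw [h2]; simp only [mul_assoc]
      _ = b ^ j * (c ^ (-j) * c ^ (j * (-(n : ℤ)))) * (a⁻¹ * a ^ (-(n : ℤ))) := by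
          rw [hc]; simp only [mul_assoc]
      _ = _ := by
          rw [← zpow_add, ← zpow_neg_one, ← zpow_add, sub_eq_add_neg, add_comm (-1 : ℤ)]
          congr 3
          ring

/-- `b^j a^u = a^u b^j c^(-(j u))` -/
theorem Rels.ba_zpow (h : Rels a b c t) (u j : ℤ) :
    b ^ j * a ^ u = a ^ u * b ^ j * c ^ (-(j * u)) := by
  rw [h.ab_zpow]
  have hc : a ^ u * c ^ (-(j * u)) = c ^ (-(j * u)) * a ^ u := (h.ac.zpow_zpow _ _).eq
  rw [mul_assoc, hc, mul_assoc (b ^ j), ← mul_assoc (c ^ (j * u)), ← zpow_add]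
  simp

/-- multiplication in the Heisenberg part: normal form times normal form -/
theorem Rels.heis_mul (h : Rels a b c t) (i j l i' j' l' : ℤ) :
    (a ^ i * b ^ j * c ^ l) * (a ^ i' * b ^ j' * c ^ l') =
      a ^ (i + i') * b ^ (j + j') * c ^ (l + l' - j * i') := by
  have e1 : c ^ l * a ^ i' = a ^ i' * c ^ l := ((h.ac.zpow_zpow i' l).eq).symm
  have e2 : c ^ l * b ^ j' = b ^ j' * c ^ l := ((h.bc.zpow_zpow j' l).eq).symm
  have e3 : c ^ (-(j * i')) * b ^ j' = b ^ j' * c ^ (-(j * i')) :=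
    ((h.bc.zpow_zpow j' _).eq).symm
  calc (a ^ i * b ^ j * c ^ l) * (a ^ i' * b ^ j' * c ^ l')
      = a ^ i * b ^ j * (c ^ l * a ^ i') * b ^ j' * c ^ l' := by group
    _ = a ^ i * (b ^ j * a ^ i') * (c ^ l * b ^ j') * c ^ l' := by rw [e1]; group
    _ = a ^ i * (a ^ i' * b ^ j * c ^ (-(j * i'))) * (b ^ j' * c ^ l) * c ^ l' := by
        rw [h.ba_zpow, e2]
    _ = a ^ i * a ^ i' * b ^ j * (c ^ (-(j * i')) * b ^ j') * c ^ l * c ^ l' := by group
    _ = a ^ i * a ^ i' * b ^ j * (b ^ j' * c ^ (-(j * i'))) * c ^ l * c ^ l' := by rw [e3]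
    _ = (a ^ i * a ^ i') * (b ^ j * b ^ j') * (c ^ (-(j * i')) * c ^ l * c ^ l') := by
        simp only [mul_assoc]
    _ = _ := by
        rw [← zpow_add, ← zpow_add, ← zpow_add, ← zpow_add]
        congr 2
        ring

theorem Rels.t_heis (h : Rels a b c t) (m : ℕ) (i j l : ℤ) :
    t ^ m * (a ^ i * b ^ j * c ^ l) = (a ^ i * b ^ ((2 : ℤ) ^ m * j) * c ^ ((2 : ℤ) ^ m * l)) * t ^ m := by
  have e1 : t ^ m * a ^ i = a ^ i * t ^ m :=
    ((h.at'.zpow_left i).pow_right m).eq.symm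
  calc t ^ m * (a ^ i * b ^ j * c ^ l) = (t ^ m * a ^ i) * b ^ j * c ^ l := by
        simp only [mul_assoc]
    _ = a ^ i * (t ^ m * b ^ j) * c ^ l := by rw [e1]; simp only [mul_assoc]
    _ = a ^ i * b ^ ((2 : ℤ) ^ m * j) * (t ^ m * c ^ l) := by
        rw [h.tb_pow]; simp only [mul_assoc]
    _ = _ := by rw [h.tc_pow]; simp only [mul_assoc]

end Pool.Agent.MP_8fcf71_al
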